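import Pool.Agent.Lib.MP_c7af3c_ag.GEN.Schemes

/-!
# MP_c7af3c_ag, project GEN: module statements, part 4: the groupless side (board grp_modules)
-/

set_option autoImplicit false

namespace Pool.Agent.Gen

open AlgebraicGeometry CategoryTheory CategoryTheory.Limits MonoidalCategory
  CartesianMonoidalCategory MonObj
open MvPolynomial (homogeneousSubmodule)

/-- the constants in `Γ(A, U)` -/
noncomputable def cst {k : Type} [Field k] {A : Scheme.{0}} (a : A ⟶ Spec (CommRingCat.of k))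
    (U : A.Opens) (c : k) : Γ(A, U) :=
  (a.appLE ⊤ U le_top).hom ((Scheme.ΓSpecIso (CommRingCat.of k)).inv.hom c)

/-- finitely many affine charts with finitely many generators of their rings of functions -/
structure Charts {k : Type} [Field k] {A : Scheme.{0}} (a : A ⟶ Spec (CommRingCat.of k)) where
  I : Type
  fin : Finite I
  U : I → A.Opens
  aff : ∀ i, IsAffineOpen (U i)
  cover : ∀ x : A, ∃ i, x ∈ U i
  gens : ∀ i, Set Γ(A, U i)
  gens_fin : ∀ i, (gens i).Finite
  gen : ∀ i (T : Subring Γ(A, U i)), gens i ⊆ T → (∀ c, cst a (U i) c ∈ T) → T = ⊤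

/-- Module GCHART. -/
def GchartStatement : Prop := ∀ (k : Type) [Field k] (A : Scheme.{0})
  (a : A ⟶ Spec (CommRingCat.of k)), LocallyOfFiniteType a → QuasiCompact a → Nonempty (Charts a)

/-- `y` is `K`-rational with respect to the charts -/
def Charts.IsRat {k : Type} [Field k] {A : Scheme.{0}} {a : A ⟶ Spec (CommRingCat.of k)}
    (Ch : Charts a) {K' : Type} [Field K'] (K : Subfield K')
    (y : Spec (CommRingCat.of K') ⟶ A) : Prop :=
  ∀ i (h : ⊤ ≤ y ⁻¹ᵁ Ch.U i), ∀ b ∈ Ch.gens i, kval y (Ch.U i) h b ∈ K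

/-- Module GRAT: values of functions on `A × A` at pairs of `K`-rational points. -/
def GratStatement : Prop := ∀ (k K' : Type) [Field k] [Field K'] [Algebra k K']
  (A Z : Scheme.{0}) (a : A ⟶ Spec (CommRingCat.of k)) (Ch : Charts a) (p q : Z ⟶ A),
  IsPullback p q a a → ∀ W : Z.Opens, IsCompact W.carrier → ∀ f : Γ(Z, W),
  ∃ T : Set k, T.Finite ∧ ∀ K : Subfield K', (∀ t ∈ T, algebraMap k K' t ∈ K) →
    ∀ y : Spec (CommRingCat.of K') ⟶ Z,
      y ≫ p ≫ a = Spec.map (CommRingCat.ofHom (algebraMap k K')) →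
      Ch.IsRat K (y ≫ p) → Ch.IsRat K (y ≫ q) → ∀ h : ⊤ ≤ y ⁻¹ᵁ W, kval y W h f ∈ K

/-- `Spec K'` over `Spec k` -/
noncomputable abbrev ptOver (k K' : Type) [Field k] [Field K'] [Algebra k K'] :
    Over (Spec (CommRingCat.of k)) :=
  Over.mk (Spec.map (CommRingCat.ofHom (algebraMap k K')))

/-- Module GMUL: the product of `K`-rational points is `K`-rational. -/
def GmulStatement : Prop := ∀ (k K' : Type) [Field k] [Field K'] [Algebra k K']
  [CartesianMonoidalCategory (Over (Spec (CommRingCat.of k)))]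
  (A : Over (Spec (CommRingCat.of k))) [GrpObj A], IsProper A.hom → ∀ Ch : Charts A.hom,
  ∃ T : Set k, T.Finite ∧ ∀ K : Subfield K', (∀ t ∈ T, algebraMap k K' t ∈ K) →
    ∀ x y : ptOver k K' ⟶ A, Ch.IsRat K x.left → Ch.IsRat K y.left → Ch.IsRat K (x * y).left

/-- Module GVAL: values of one function at `K`-rational points. -/
def GvalStatement : Prop := ∀ (k K' : Type) [Field k] [Field K'] [Algebra k K']
  (A : Scheme.{0}) (a : A ⟶ Spec (CommRingCat.of k)), IsProper a → ∀ (Ch : Charts a)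
  (W : A.Opens) (f : Γ(A, W)), ∃ T : Set k, T.Finite ∧ ∀ K : Subfield K',
    (∀ t ∈ T, algebraMap k K' t ∈ K) → ∀ y : Spec (CommRingCat.of K') ⟶ A,
      y ≫ a = Spec.map (CommRingCat.ofHom (algebraMap k K')) →
      Ch.IsRat K y → ∀ h : ⊤ ≤ y ⁻¹ᵁ W, kval y W h f ∈ K

section

variable (k : Type) [Field k] (n : ℕ) [GradedAlgebra (homogeneousSubmodule (Fin (n + 1)) k)]

/-- the coordinates (in the chart `j`) of a `K'`-point of projective space over `k` -/
noncomputable def pcoordE {K' : Type} [Field K'] (j : Fin (n + 1))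
    (P : Spec (CommRingCat.of K') ⟶ Proj (homogeneousSubmodule (Fin (n + 1)) k))
    (h : ⊤ ≤ P ⁻¹ᵁ Proj.basicOpen (homogeneousSubmodule (Fin (n + 1)) k) (MvPolynomial.X j)) :
    Fin (n + 1) → K' :=
  fun l => kval P _ h (coordSec k n j l)

/-- facts about `K'`-points of projective space over `k` (as `ProjFacts`) -/
structure ProjFactsE (K' : Type) [Field K'] [Algebra k K'] : Prop where
  one : ∀ (j : Fin (n + 1))
    (P : Spec (CommRingCat.of K') ⟶ Proj (homogeneousSubmodule (Fin (n + 1)) k)) h,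
    pcoordE k n j P h j = 1
  zero : ∀ (j : Fin (n + 1))
    (P : Spec (CommRingCat.of K') ⟶ Proj (homogeneousSubmodule (Fin (n + 1)) k)) h,
    P ≫ projStr k n = Spec.map (CommRingCat.ofHom (algebraMap k K')) →
    ∀ (d : ℕ) (F : MvPolynomial (Fin (n + 1)) k), F.IsHomogeneous d →
    (∀ a, F ∈ (P.base a).asHomogeneousIdeal) → MvPolynomial.aeval (pcoordE k n j P h) F = 0
  inj : ∀ (j : Fin (n + 1))
    (P Q : Spec (CommRingCat.of K') ⟶ Proj (homogeneousSubmodule (Fin (n + 1)) k)) hP hQ,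
    P ≫ projStr k n = Spec.map (CommRingCat.ofHom (algebraMap k K')) →
    Q ≫ projStr k n = Spec.map (CommRingCat.ofHom (algebraMap k K')) →
    pcoordE k n j P hP = pcoordE k n j Q hQ → P = Q

end

/-- Module GPROJ. -/
def GprojStatement : Prop := ∀ (k : Type) [Field k] (n : ℕ)
  [GradedAlgebra (homogeneousSubmodule (Fin (n + 1)) k)] (K' : Type) [Field K'] [Algebra k K'],
  ProjFactsE k n K'

/-- Module GFIN: two of the points `φ(R P^n)` coincide. -/
def GfinStatement : Prop := ∀ (k : Type) [Field k] [IsAlgClosed k] [CharZero k]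
  (n c : ℕ) (d : Fin c → ℕ) (F : Fin c → MvPolynomial (Fin (n + 1)) k),
  (∀ m, (F m).IsHomogeneous (d m)) → AlgebraicIndependent ℤ (coeffs d F) →
  2 * n + 2 ≤ c + ∑ m, d m →
  ∀ [CartesianMonoidalCategory (Over (Spec (CommRingCat.of k)))]
  (A : Over (Spec (CommRingCat.of k))) [GrpObj A], IsProper A.hom →
  ∀ [GradedAlgebra (homogeneousSubmodule (Fin (n + 1)) k)]
  (φ : A.left ⟶ Proj (homogeneousSubmodule (Fin (n + 1)) k)), φ ≫ projStr k n = A.hom →
  (∀ (a : A.left) (m : Fin c), F m ∈ (φ.base a).asHomogeneousIdeal) →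
  ∀ (K' : Type) [Field K'] [IsAlgClosed K'] [Algebra k K'] (P R : ptOver k K' ⟶ A),
  ∃ n₁ n₂ : ℕ, n₁ ≠ n₂ ∧ (R * P ^ n₁).left ≫ φ = (R * P ^ n₂).left ≫ φ

/-- Module GGEN: a geometric generic point. -/
def GgenStatement : Prop := ∀ (k : Type) [Field k] (A : Over (Spec (CommRingCat.of k))),
  AlgebraicGeometry.IsIntegral A.left →
  ∃ (K' : Type) (_ : Field K') (_ : IsAlgClosed K') (_ : Algebra k K') (P : ptOver k K' ⟶ A),
    ∀ Y : Over (Spec (CommRingCat.of k)), IsSeparated Y.hom → ∀ u v : A ⟶ Y,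
      P ≫ u = P ≫ v → u = v

/-- `Spec k[ε]` over `Spec k` -/
noncomputable abbrev dualOver (k : Type) [Field k] : Over (Spec (CommRingCat.of k)) :=
  Over.mk (Spec.map (CommRingCat.ofHom (algebraMap k (DualNumber k))))

/-- the endomorphism `ε ↦ a ε` of `Spec k[ε]` -/
noncomputable def rho (k : Type) [Field k] (a : k) : dualOver k ⟶ dualOver k :=
  Over.homMk (Spec.map (CommRingCat.ofHom
    (TrivSqZeroExt.map (a • LinearMap.id : k →ₗ[k] k)).toRingHom)) (by
      change Spec.map _ ≫ Spec.map _ = Spec.map _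
      rw [← Spec.map_comp, ← CommRingCat.ofHom_comp]
      congr 2
      exact (TrivSqZeroExt.map (a • LinearMap.id : k →ₗ[k] k)).comp_algebraMap)

/-- Module GDUAL: powers of tangent vectors at the origin of a group scheme. -/
def GdualStatement : Prop := ∀ (k : Type) [Field k]
  [CartesianMonoidalCategory (Over (Spec (CommRingCat.of k)))]
  (A : Over (Spec (CommRingCat.of k))) [GrpObj A] (w : dualOver k ⟶ A),
  rho k 0 ≫ w = 1 → ∀ n : ℕ, w ^ n = rho k n ≫ w

/-- Module GTZERO. -/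
def GtzeroStatement : Prop := ∀ (k : Type) [Field k] [CharZero k] (Y : Scheme.{0})
  (u : (dualOver k).left ⟶ Y) (n₁ n₂ : ℕ), n₁ ≠ n₂ →
  (rho k n₁).left ≫ u = (rho k n₂).left ≫ u → (rho k 0).left ≫ u = u

/-- Module GTAN: a morphism with zero differential is constant. -/
def GtanStatement : Prop := ∀ (k : Type) [Field k] [IsAlgClosed k] [CharZero k]
  (A Y : Over (Spec (CommRingCat.of k))), AlgebraicGeometry.IsIntegral A.left →
  LocallyOfFiniteType A.hom → IsSeparated Y.hom → ∀ φ : A ⟶ Y,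
  (∀ v : dualOver k ⟶ A, rho k 0 ≫ v ≫ φ = v ≫ φ) →
  ∀ a b : A.left, φ.left.base a = φ.left.base b

/-- Module GFIB. -/
def GfibStatement : Prop := ∀ (A X Y : Scheme.{0}), AlgebraicGeometry.IsIntegral A →
  ∀ (g : A ⟶ X) (i : X ⟶ Y), IsFinite i → (∀ a b : A, (g ≫ i).base a = (g ≫ i).base b) →
  ∀ a b : A, g.base a = g.base b

/-- `X` is groupless (exactly as in the frozen statement S00435). -/
def IsGL (k : Type) [Field k] (X : Over (Spec (CommRingCat.of k))) : Prop :=
  ∀ (_ : CartesianMonoidalCategory (Over (Spec (CommRingCat.of k))))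
    (A : Over (Spec (CommRingCat.of k))) (_ : GrpObj A),
    AlgebraicGeometry.IsIntegral A.left → IsProper A.hom →
    ∀ (g : A ⟶ X) (a b : A.left), g.left.base a = g.left.base b

/-- Module GRPL: assembly. -/
def GrplStatement : Prop := ∀ (k : Type) [Field k] [IsAlgClosed k] [CharZero k]
  (n c : ℕ) (d : Fin c → ℕ) (F : Fin c → MvPolynomial (Fin (n + 1)) k),
  (∀ m, (F m).IsHomogeneous (d m)) → AlgebraicIndependent ℤ (coeffs d F) →
  2 * n + 2 ≤ c + ∑ m, d m → ∀ (X : Over (Spec (CommRingCat.of k))),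
  (∃ (_ : GradedAlgebra (homogeneousSubmodule (Fin (n + 1)) k))
      (i : X.left ⟶ Proj (homogeneousSubmodule (Fin (n + 1)) k)),
      IsFinite i ∧ i ≫ projStr k n = X.hom ∧
      ∀ (a : X.left) (m : Fin c), F m ∈ (i.base a).asHomogeneousIdeal) → IsGL k X

end Pool.Agent.Gen
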