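import Mathlib

/-!
# MP_c7af3c_ag, project GEN: very general complete intersections are arithmetically hyperbolic
Definitions and module statements, part 1. See Paper.md (section numbers refer to it).
-/

set_option autoImplicit false

namespace Pool.Agent.Gen

open MvPolynomial WithZero IsDedekindDomain

/-! ### 1. Linear algebra -/

/-- The data of section 1. -/
structure Sys (L : Type) [Field L] (n c : ℕ) (d : Fin c → ℕ) where
  F : Fin c → MvPolynomial (Fin (n + 1)) L
  hom : ∀ m, (F m).IsHomogeneous (d m)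
  x : Fin (n + 1) → L
  x_ne : x ≠ 0
  zero : ∀ m, eval x (F m) = 0
  V : Fin c → MvPolynomial (Fin (n + 1)) L →ₗ[L] (Fin (n + 1) → L)
  rel : ∀ (m m' : Fin c) (G : MvPolynomial (Fin (n + 1)) L), G.IsHomogeneous (d m) →
    ∑ p, eval x (pderiv p (F m')) * V m G p = if m = m' then - eval x G else 0

/-- The columns. -/
inductive Col (n c : ℕ)
  | pt : Col n c
  | Z (m : Fin c) (i j : Fin (n + 1)) (I : Fin (n + 1) →₀ ℕ) : Col n c
  | W (p q : Fin (n + 1)) : Col n c
  | U (m : Fin c) : Col n c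

/-- weights -/
def Col.wt {n c : ℕ} : Col n c → ℕ
  | Col.pt => 1
  | Col.Z _ _ _ _ => 2
  | Col.W _ _ => 1
  | Col.U _ => 1

/-- in `Z m i j I` the monomial `X^I` has degree `d m - 1` -/
def Col.Ok {n c : ℕ} (d : Fin c → ℕ) : Col n c → Prop
  | Col.pt => True
  | Col.Z m _ _ I => I.degree + 1 = d m
  | Col.W _ _ => True
  | Col.U _ => True

/-- the columns `C^(i0)` -/
noncomputable def Col.val {L : Type} [Field L] {n c : ℕ} {d : Fin c → ℕ} (S : Sys L n c d)
    (i0 : Fin (n + 1)) : Col n c → (Fin (n + 1) → L)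
  | Col.pt => S.x
  | Col.Z m i j I => S.x j • S.V m (X i * monomial I 1) - S.x i • S.V m (X j * monomial I 1)
  | Col.W p q => S.x q • Pi.single p 1 + ∑ m, S.V m (X q * pderiv p (S.F m))
  | Col.U m => S.V m (X i0 ^ d m)

/-- the determinants `det^(i)` -/
noncomputable def Sys.det {L : Type} [Field L] {n c : ℕ} {d : Fin c → ℕ} (S : Sys L n c d)
    (C : Fin (n + 1) → Col n c) (i : Fin (n + 1)) : L :=
  Matrix.det (Matrix.of fun a k => (C k).val S i a)

/-- Module LIN. -/
def LinStatement : Prop := ∀ (L : Type) [Field L] (n c : ℕ) (d : Fin c → ℕ) (S : Sys L n c d),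
  ∃ (C : Fin (n + 1) → Col n c) (μ : L), μ ≠ 0 ∧ (∃ k, C k = Col.pt) ∧ (∀ k, (C k).Ok d) ∧
    ∑ k, (C k).wt + c ≤ 2 * n + 1 ∧ ∀ i, S.det C i = μ * S.x i ^ (∑ m, d m)

/-! ### 2. Derivations -/

/-- Forms and derivations dual to their coefficients. -/
structure DSys (L : Type) [Field L] (n c : ℕ) (d : Fin c → ℕ) where
  F : Fin c → MvPolynomial (Fin (n + 1)) L
  hom : ∀ m, (F m).IsHomogeneous (d m)
  del : Fin c → (Fin (n + 1) →₀ ℕ) → Derivation ℤ L L
  dual : ∀ m I m' J, I.degree = d m → J.degree = d m' →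
    del m I (coeff J (F m')) = if m = m' ∧ I = J then 1 else 0

/-- `V_m(G) = sum_I G_I del_{m,I}(x)` -/
noncomputable def DSys.V {L : Type} [Field L] {n c : ℕ} {d : Fin c → ℕ} (D : DSys L n c d)
    (x : Fin (n + 1) → L) (m : Fin c) :
    MvPolynomial (Fin (n + 1)) L →ₗ[L] (Fin (n + 1) → L) :=
  (basisMonomials (Fin (n + 1)) L).constr L fun I p => D.del m I (x p)

theorem DSys.V_monomial {L : Type} [Field L] {n c : ℕ} {d : Fin c → ℕ} (D : DSys L n c d)
    (x : Fin (n + 1) → L) (m : Fin c) (I : Fin (n + 1) →₀ ℕ) (a : L) (p : Fin (n + 1)) :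
    D.V x m (monomial I a) p = a * D.del m I (x p) := by
  have h : monomial I a = a • (basisMonomials (Fin (n + 1)) L) I := by
    rw [coe_basisMonomials, smul_monomial]; simp
  rw [h, map_smul]
  unfold DSys.V
  rw [Module.Basis.constr_basis]
  rfl

theorem DSys.V_apply {L : Type} [Field L] {n c : ℕ} {d : Fin c → ℕ} (D : DSys L n c d)
    (x : Fin (n + 1) → L) (m : Fin c) (G : MvPolynomial (Fin (n + 1)) L) (p : Fin (n + 1)) :
    D.V x m G p = ∑ I ∈ G.support, coeff I G * D.del m I (x p) := by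
  conv_lhs => rw [G.as_sum]
  rw [map_sum, Finset.sum_apply]
  exact Finset.sum_congr rfl fun I _ => D.V_monomial x m I _ p

/-- Module RELN: the relation (R). -/
def RelnStatement : Prop := ∀ (L : Type) [Field L] (n c : ℕ) (d : Fin c → ℕ) (D : DSys L n c d)
  (x : Fin (n + 1) → L), (∀ m, eval x (D.F m) = 0) →
  ∀ (m m' : Fin c) (G : MvPolynomial (Fin (n + 1)) L), G.IsHomogeneous (d m) →
    ∑ p, eval x (pderiv p (D.F m')) * D.V x m G p = if m = m' then - eval x G else 0

/-- the system of a point (RELN is a hypothesis) -/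
noncomputable def DSys.toSys (hR : RelnStatement) {L : Type} [Field L] {n c : ℕ} {d : Fin c → ℕ}
    (D : DSys L n c d) (x : Fin (n + 1) → L) (hx : x ≠ 0) (h0 : ∀ m, eval x (D.F m) = 0) :
    Sys L n c d where
  F := D.F
  hom := D.hom
  x := x
  x_ne := hx
  zero := h0
  V := D.V x
  rel := hR L n c d D x h0

/-! ### 3. One valuation -/

/-- Module LOC. -/
def LocStatement : Prop := ∀ (hR : RelnStatement) (L : Type) [Field L] (n c : ℕ) (d : Fin c → ℕ)
  (D : DSys L n c d) (x : Fin (n + 1) → L) (hx : x ≠ 0) (h0 : ∀ m, eval x (D.F m) = 0)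
  (v : Valuation L ℤᵐ⁰) (M s : ℤᵐ⁰), 1 ≤ M →
  (∀ m I, I.degree = d m → ∀ f, v f ≤ 1 → v (D.del m I f) ≤ M) →
  (∀ m I, v (coeff I (D.F m)) ≤ M) → (∀ j, v (x j) ≤ s) → (∃ j, v (x j) = s) →
  ∀ C : Fin (n + 1) → Col n c, (∃ k, C k = Col.pt) → (∀ k, (C k).Ok d) → ∀ i,
    v ((D.toSys hR x hx h0).det C i) ≤ M ^ (2 * n + 2) * s ^ (∑ k, (C k).wt)

/-! ### 4. Product formula and heights -/

/-- A family of valuations with weights. -/
structure PlaceSys (L : Type) [Field L] where
  V : Type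
  v : V → Valuation L ℤᵐ⁰
  w : V → ℕ

/-- product formula -/
structure PlaceSys.IsProd {L : Type} [Field L] (S : PlaceSys L) : Prop where
  fin : ∀ f : L, f ≠ 0 → {p | S.v p f ≠ 1}.Finite
  prod : ∀ f : L, f ≠ 0 → ∑ᶠ p, (S.w p : ℤ) * log (S.v p f) = 0

/-- the maximum of `|x_j|_p` -/
noncomputable def PlaceSys.mx {L : Type} [Field L] (S : PlaceSys L) {n : ℕ}
    (x : Fin (n + 1) → L) (p : S.V) : ℤᵐ⁰ :=
  Finset.univ.sup' ⟨0, Finset.mem_univ _⟩ fun j => S.v p (x j)

/-- the height -/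
noncomputable def PlaceSys.ht {L : Type} [Field L] (S : PlaceSys L) {n : ℕ}
    (x : Fin (n + 1) → L) : ℤ :=
  ∑ᶠ p, (S.w p : ℤ) * log (S.mx x p)

/-! Elementary facts about heights (ready to use). -/

section Ht

variable {L : Type} [Field L] (S : PlaceSys L) {n : ℕ} (x : Fin (n + 1) → L)

theorem PlaceSys.le_mx (p : S.V) (j : Fin (n + 1)) : S.v p (x j) ≤ S.mx x p :=
  Finset.le_sup' (fun j => S.v p (x j)) (Finset.mem_univ j)

theorem PlaceSys.exists_mx (p : S.V) : ∃ j, S.v p (x j) = S.mx x p := by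
  obtain ⟨j, -, hj⟩ := Finset.exists_mem_eq_sup' (s := (Finset.univ : Finset (Fin (n + 1))))
    ⟨0, Finset.mem_univ _⟩ (fun j => S.v p (x j))
  exact ⟨j, hj.symm⟩

theorem PlaceSys.mx_ne_zero (hx : x ≠ 0) (p : S.V) : S.mx x p ≠ 0 := by
  obtain ⟨j, hj⟩ : ∃ j, x j ≠ 0 := Function.ne_iff.1 hx
  intro h
  have := S.le_mx x p j
  rw [h, le_zero_iff, map_eq_zero] at this
  exact hj this

theorem PlaceSys.finite_mx (hS : ∀ f : L, f ≠ 0 → {p | S.v p f ≠ 1}.Finite) (hx : x ≠ 0) : {p | S.mx x p ≠ 1}.Finite := by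
  have hf : (⋃ j ∈ {j | x j ≠ 0}, {p | S.v p (x j) ≠ 1}).Finite :=
    Set.Finite.biUnion (Set.toFinite _) fun j hj => hS _ hj
  refine hf.subset fun p hp => ?_
  by_contra hc
  simp only [Set.mem_ofPred_eq, ne_eq, Set.mem_iUnion, exists_prop, not_exists, not_and,
    not_not] at hc hp
  apply hp
  obtain ⟨j, hj⟩ : ∃ j, x j ≠ 0 := Function.ne_iff.1 hx
  obtain ⟨i, hi⟩ := S.exists_mx x p
  have hi0 : x i ≠ 0 := fun h => S.mx_ne_zero x hx p (by rw [← hi, h, map_zero])
  rw [← hi]
  exact hc i hi0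

theorem PlaceSys.one_le_mx {j0 : Fin (n + 1)} (h : x j0 = 1) (p : S.V) : 1 ≤ S.mx x p := by
  have := S.le_mx x p j0
  rwa [h, map_one] at this

theorem PlaceSys.log_mx_nonneg {j0 : Fin (n + 1)} (h : x j0 = 1) (p : S.V) :
    0 ≤ log (S.mx x p) := by
  have h1 := S.one_le_mx x h p
  have h0 : S.mx x p ≠ 0 := fun h0 => by rw [h0] at h1; exact absurd h1 (by simp)
  have : exp (0 : ℤ) ≤ exp (log (S.mx x p)) := by rw [exp_log h0, exp_zero]; exact h1
  exact WithZero.exp_le_exp.1 this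

theorem PlaceSys.term_le_ht (hS : ∀ f : L, f ≠ 0 → {p | S.v p f ≠ 1}.Finite) {j0 : Fin (n + 1)} (h : x j0 = 1) (p : S.V) :
    (S.w p : ℤ) * log (S.mx x p) ≤ S.ht x := by
  have hx : x ≠ 0 := fun h0 => by rw [h0] at h; exact zero_ne_one h
  have hfin : (Function.support fun p => (S.w p : ℤ) * log (S.mx x p)).Finite := by
    refine (S.finite_mx x hS hx).subset fun q hq => ?_
    simp only [Function.mem_support, ne_eq, mul_eq_zero, not_or] at hq
    exact fun h1 => hq.2 (by rw [h1, log_one])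
  exact single_le_finsum p hfin fun q =>
    mul_nonneg (by positivity) (S.log_mx_nonneg x h q)

theorem PlaceSys.v_le_of_ht_le (hS : ∀ f : L, f ≠ 0 → {p | S.v p f ≠ 1}.Finite) {j0 : Fin (n + 1)} (h : x j0 = 1) {C : ℤ}
    (hC : S.ht x ≤ C) (p : S.V) (hp : 0 < S.w p) (j : Fin (n + 1)) :
    S.v p (x j) ≤ exp C := by
  have h1 := (S.term_le_ht x hS h p).trans hC
  have h2 := S.log_mx_nonneg x h p
  have h3 : log (S.mx x p) ≤ C := by
    have : (1 : ℤ) ≤ S.w p := by exact_mod_cast hp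
    nlinarith
  have hx : x ≠ 0 := fun h0 => by rw [h0] at h; exact zero_ne_one h
  refine (S.le_mx x p j).trans ?_
  rw [← exp_log (S.mx_ne_zero x hx p)]
  exact WithZero.exp_le_exp.2 h3

end Ht

/-- Module GLOB. -/
def GlobStatement : Prop := RelnStatement → LinStatement → LocStatement →
  ∀ (L : Type) [Field L] (n c : ℕ) (d : Fin c → ℕ) (D : DSys L n c d) (x : Fin (n + 1) → L),
  x ≠ 0 → (∀ m, eval x (D.F m) = 0) → 2 * n + 2 ≤ c + ∑ m, d m →
  ∀ (S : PlaceSys L), S.IsProd → ∀ M : S.V → ℕ, {p | M p ≠ 0}.Finite →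
  (∀ p m I, I.degree = d m → ∀ f, S.v p f ≤ 1 → S.v p (D.del m I f) ≤ exp (M p : ℤ)) →
  (∀ p m I, S.v p (coeff I (D.F m)) ≤ exp (M p : ℤ)) →
    S.ht x ≤ (2 * n + 2) * ∑ᶠ p, (S.w p : ℤ) * M p

/-! ### 5. Places of a one-variable function field -/

/-- `L` is finite over `κ(τ)`, `τ` transcendental, characteristic zero. -/
structure FF (κ L : Type) [Field κ] [Field L] [Algebra κ L] (τ : L) : Prop where
  tr : Transcendental κ τ
  fin : FiniteDimensional (IntermediateField.adjoin κ {τ}) L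
  char : CharZero κ

/-- `κ[τ]` -/
abbrev PA (κ : Type) {L : Type} [Field κ] [Field L] [Algebra κ L] (τ : L) : Subalgebra κ L :=
  Algebra.adjoin κ {τ}

/-- the integral closure of `κ[τ]` in `L` -/
abbrev PB (κ : Type) {L : Type} [Field κ] [Field L] [Algebra κ L] (τ : L) :
    Subalgebra (PA κ τ) L :=
  integralClosure (PA κ τ) L

section FFbasic

variable {κ L : Type} [Field κ] [Field L] [Algebra κ L] {τ : L}

open scoped IntermediateField.algebraAdjoinAdjoin

theorem FF.pid (h : FF κ L τ) : IsPrincipalIdealRing (PA κ τ) :=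
  IsPrincipalIdealRing.of_surjective
    (Polynomial.algEquivOfTranscendental κ τ h.tr).toRingEquiv.toRingHom
    (Polynomial.algEquivOfTranscendental κ τ h.tr).surjective

theorem FF.sep (h : FF κ L τ) : Algebra.IsSeparable (IntermediateField.adjoin κ {τ}) L := by
  have := h.fin
  have := h.char
  have : CharZero (IntermediateField.adjoin κ {τ}) :=
    charZero_of_injective_algebraMap (algebraMap κ _).injective
  infer_instance

theorem FF.ddk (h : FF κ L τ) : IsDedekindDomain (PB κ τ) := by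
  have := h.pid
  have := h.fin
  have := h.sep
  exact integralClosure.isDedekindDomain (PA κ τ) (IntermediateField.adjoin κ {τ}) L

theorem FF.frac (h : FF κ L τ) : IsFractionRing (PB κ τ) L := by
  have := h.fin
  exact integralClosure.isFractionRing_of_finite_extension (IntermediateField.adjoin κ {τ}) L

theorem FF.finB (h : FF κ L τ) : Module.Finite (PA κ τ) (PB κ τ) := by
  have := h.pid
  have := h.fin
  have := h.sep
  exact IsIntegralClosure.finite (PA κ τ) (IntermediateField.adjoin κ {τ}) L (PB κ τ)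

theorem FF.inv (h : FF κ L τ) : FF κ L τ⁻¹ := by
  have e : IntermediateField.adjoin κ {τ⁻¹} = IntermediateField.adjoin κ {τ} := by
    apply le_antisymm
    · rw [IntermediateField.adjoin_simple_le_iff]
      exact inv_mem (IntermediateField.mem_adjoin_simple_self κ τ)
    · rw [IntermediateField.adjoin_simple_le_iff]
      have := inv_mem (IntermediateField.mem_adjoin_simple_self κ τ⁻¹)
      rwa [inv_inv] at this
  refine ⟨fun ha => h.tr ?_, ?_, h.char⟩
  · have := ha.inv
    rwa [inv_inv] at this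
  · rw [e]; exact h.fin

end FFbasic

/-- a generator of the relative norm of an ideal -/
noncomputable def nrm (A : Type) {B : Type} [CommRing A] [IsDomain A] [IsPrincipalIdealRing A]
    [CommRing B] [IsDedekindDomain B] [Algebra A B] [Module.Finite A B]
    [Module.IsTorsionFree A B] (P : Ideal B) : A :=
  Submodule.IsPrincipal.generator (Ideal.relNorm A P)

/-- the polynomial of an element of `κ[τ]` -/
noncomputable def FF.poly {κ L : Type} [Field κ] [Field L] [Algebra κ L] {τ : L} (h : FF κ L τ) :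
    PA κ τ ≃ₐ[κ] Polynomial κ :=
  (Polynomial.algEquivOfTranscendental κ τ h.tr).symm

/-- the polynomial generating the norm of an ideal of `PB κ τ` -/
noncomputable def FF.gp {κ L : Type} [Field κ] [Field L] [Algebra κ L] {τ : L} (h : FF κ L τ)
    (P : Ideal (PB κ τ)) : Polynomial κ :=
  haveI := h.pid
  haveI := h.ddk
  haveI := h.finB
  h.poly (nrm (PA κ τ) P)

/-- The places of `L`: maximal ideals of `PB κ τ` and of `PB κ τ⁻¹`. -/
noncomputable def ffPlaces {κ L : Type} [Field κ] [Field L] [Algebra κ L] {τ : L}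
    (h : FF κ L τ) : PlaceSys L where
  V := HeightOneSpectrum (PB κ τ) ⊕ HeightOneSpectrum (PB κ τ⁻¹)
  v := Sum.elim
    (fun P => haveI := h.ddk; haveI := h.frac; P.valuation L)
    (fun Q => haveI := h.inv.ddk; haveI := h.inv.frac; Q.valuation L)
  w := Sum.elim (fun P => (h.gp P.asIdeal).natDegree)
    (fun Q => (h.inv.gp Q.asIdeal).rootMultiplicity 0)

end Pool.Agent.Gen
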