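import Pool.Agent.Lib.MP_c7af3c_ag.GEN.Base

/-!
# MP_c7af3c_ag, project GEN: module statements, part 2 (see Paper.md, Blueprint.md)
-/

set_option autoImplicit false

namespace Pool.Agent.Gen

open MvPolynomial WithZero IsDedekindDomain

/-! ### 5. Function fields of one variable -/

/-- Module NORMID: sums over the maximal ideals of `B`, weights `lam (generator of relNorm P)`. -/
def NormidStatement : Prop := ∀ (A B L : Type) [CommRing A] [IsDomain A] [IsPrincipalIdealRing A]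
  [CommRing B] [IsDedekindDomain B] [Algebra A B] [Module.Finite A B] [Module.IsTorsionFree A B]
  [Field L] [Algebra B L] [IsFractionRing B L] (lam : A → ℕ),
  (∀ a b, a ≠ 0 → b ≠ 0 → lam (a * b) = lam a + lam b) →
  (∀ b : B, b ≠ 0 → ∑ᶠ P : HeightOneSpectrum B,
      (lam (nrm A P.asIdeal) : ℤ) * log (P.valuation L (algebraMap B L b)) =
        - (lam (Algebra.intNorm A B b) : ℤ)) ∧
  ∀ z : L, ∃ β : A, β ≠ 0 ∧ (∃ b : B, algebraMap B L b = algebraMap B L (algebraMap A B β) * z) ∧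
    (lam β : ℤ) = ∑ᶠ P : HeightOneSpectrum B,
      (lam (nrm A P.asIdeal) : ℤ) * max 0 (log (P.valuation L z))

/-- Module PROD: the product formula. -/
def ProdStatement : Prop := ∀ (κ L : Type) [Field κ] [Field L] [Algebra κ L] (τ : L)
  (h : FF κ L τ), (ffPlaces h).IsProd

/-- Module PLACE: elementary properties of the places of `ffPlaces`. -/
structure PlaceFacts {κ L : Type} [Field κ] [Field L] [Algebra κ L] {τ : L} (h : FF κ L τ) :
    Prop where
  fin : ∀ f : L, f ≠ 0 → {p | (ffPlaces h).v p f ≠ 1}.Finite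
  /-- all weights of the first kind are positive -/
  w_pos : ∀ P, 0 < (ffPlaces h).w (Sum.inl P)
  /-- positive weight of the second kind: `1/τ` in the maximal ideal -/
  w_inf : ∀ Q, 0 < (ffPlaces h).w (Sum.inr Q) → (ffPlaces h).v (Sum.inr Q) τ⁻¹ ≤ exp (-1 : ℤ)
  /-- integral elements -/
  int₁ : ∀ P z, IsIntegral (PA κ τ) z → (ffPlaces h).v (Sum.inl P) z ≤ 1
  int₂ : ∀ Q z, IsIntegral (PA κ τ⁻¹) z → (ffPlaces h).v (Sum.inr Q) z ≤ 1
  /-- constants -/
  const : ∀ p (a : κ), (ffPlaces h).v p (algebraMap κ L a) ≤ 1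
  /-- denominators for the first kind -/
  den₁ : ∀ z : L, ∃ β : Polynomial κ, β ≠ 0 ∧ IsIntegral (PA κ τ) (Polynomial.aeval τ β * z) ∧
    (β.natDegree : ℤ) = ∑ᶠ P, ((ffPlaces h).w (Sum.inl P) : ℤ) *
      max 0 (log ((ffPlaces h).v (Sum.inl P) z))
  /-- denominators for the second kind -/
  den₂ : ∀ z : L,
    (∀ Q, 0 < (ffPlaces h).w (Sum.inr Q) → (ffPlaces h).v (Sum.inr Q) z ≤ 1) →
    ∃ β : Polynomial κ, β.coeff 0 ≠ 0 ∧ IsIntegral (PA κ τ⁻¹) (Polynomial.aeval τ⁻¹ β * z)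

/-- Module PLACE. -/
def PlaceStatement : Prop := ∀ (κ L : Type) [Field κ] [Field L] [Algebra κ L] (τ : L)
  (h : FF κ L τ), PlaceFacts h

/-- Module ALGC: no poles of positive weight implies algebraic over the constants. -/
def AlgcStatement : Prop := ∀ (κ L : Type) [Field κ] [Field L] [Algebra κ L] (τ : L)
  (h : FF κ L τ) (y : L), (∀ p, 0 < (ffPlaces h).w p → (ffPlaces h).v p y ≤ 1) → IsAlgebraic κ y

/-- Module DERB: derivations are bounded at every place. -/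
def DerbStatement : Prop := ∀ (κ L : Type) [Field κ] [Field L] [Algebra κ L] (τ : L)
  (h : FF κ L τ) (δ : Derivation ℤ L L),
  (∀ a : κ, ∃ b : κ, δ (algebraMap κ L a) = algebraMap κ L b) →
  (∃ b : κ, δ τ = algebraMap κ L b) →
  ∃ M : (ffPlaces h).V → ℕ, {p | M p ≠ 0}.Finite ∧
    ∀ p f, (ffPlaces h).v p f ≤ 1 → (ffPlaces h).v p (δ f) ≤ exp (M p : ℤ)

/-- Module DERZ: a derivation which preserves both integral closures is bounded by 1. -/
def DerzStatement : Prop := ∀ (κ L : Type) [Field κ] [Field L] [Algebra κ L] (τ : L)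
  (h : FF κ L τ) (δ : Derivation ℤ L L),
  (∀ z, IsIntegral (PA κ τ) z → IsIntegral (PA κ τ) (δ z)) →
  (∀ z, IsIntegral (PA κ τ⁻¹) z → IsIntegral (PA κ τ⁻¹) (δ z)) →
  ∀ p f, (ffPlaces h).v p f ≤ 1 → (ffPlaces h).v p (δ f) ≤ 1

/-- Module SEID (Seidenberg): a derivation which preserves an order preserves the integral
closure. -/
def SeidStatement : Prop := ∀ (κ L : Type) [Field κ] [Field L] [Algebra κ L] (τ : L)
  (_ : FF κ L τ) (δ : Derivation ℤ L L) (G : Set L),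
  (∀ a : κ, ∃ b : κ, δ (algebraMap κ L a) = algebraMap κ L b) → δ τ = 0 →
  (∀ g ∈ G, δ g = 0 ∧ IsIntegral (PA κ τ) g) → IntermediateField.adjoin κ (insert τ G) = ⊤ →
  ∀ z, IsIntegral (PA κ τ) z → IsIntegral (PA κ τ) (δ z)

/-- Module COORD: bounded height implies coordinates of bounded degree. -/
def CoordStatement : Prop := ∀ (κ L : Type) [Field κ] [Field L] [Algebra κ L] (τ : L)
  (h : FF κ L τ) (r : ℕ) (θ : Fin r → L),
  LinearIndependent (IntermediateField.adjoin κ {τ}) θ →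
  ⊤ ≤ Submodule.span (IntermediateField.adjoin κ {τ}) (Set.range θ) →
  ∀ C : ℤ, ∃ C' : ℕ, ∀ (n : ℕ) (x : Fin (n + 1) → L) (j0 : Fin (n + 1)), x j0 = 1 →
    (ffPlaces h).ht x ≤ C → ∀ (j : Fin (n + 1)) (y : Fin r → L),
    (∀ s, y s ∈ IntermediateField.adjoin κ {τ}) → x j = ∑ s, y s * θ s →
    ∀ s, ∃ p q : Polynomial κ, q ≠ 0 ∧ p.natDegree ≤ C' ∧ q.natDegree ≤ C' ∧
      y s * Polynomial.aeval τ q = Polynomial.aeval τ p

/-! ### 6. All directions -/

/-- `K` is finite over `k0(t_1..t_N)`, with the dual derivations. -/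
structure Dat (k0 K : Type) [Field k0] [Field K] [Algebra k0 K] (N : ℕ) where
  t : Fin N → K
  indep : AlgebraicIndependent k0 t
  fin : FiniteDimensional (IntermediateField.adjoin k0 (Set.range t)) K
  del : Fin N → Derivation k0 K K
  dual : ∀ i j, del i (t j) = if i = j then 1 else 0

/-- Module DERIV: existence. -/
def DerivStatement : Prop := ∀ (k0 K : Type) [Field k0] [CharZero k0] [Field K] [Algebra k0 K],
  (⊤ : IntermediateField k0 K).FG → ∀ (ι : Type) [Finite ι] (a : ι → K),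
  AlgebraicIndependent k0 a →
  ∃ (N : ℕ) (T : Dat k0 K N) (e : ι → Fin N), Function.Injective e ∧ ∀ s, T.t (e s) = a s

/-- the constants of direction `i` -/
abbrev dirκ {k0 K : Type} [Field k0] [Field K] [Algebra k0 K] {N : ℕ} (t : Fin N → K)
    (i : Fin N) : IntermediateField k0 K :=
  IntermediateField.adjoin k0 (t '' {j | j ≠ i})

/-- Module DIR. -/
def DirStatement : Prop := ∀ (k0 K : Type) [Field k0] [CharZero k0] [Field K] [Algebra k0 K]
  (N : ℕ) (T : Dat k0 K N) (i : Fin N),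
  FF (dirκ (k0 := k0) T.t i) K (T.t i) ∧
    ∀ j, ∀ f ∈ dirκ (k0 := k0) T.t i, T.del j f ∈ dirκ (k0 := k0) T.t i

/-- Module HEIGHT: bounded heights of the solutions in every direction. -/
def HeightStatement : Prop := ∀ (k0 K : Type) [Field k0] [CharZero k0] [Field K] [Algebra k0 K]
  (N : ℕ) (T : Dat k0 K N) (hdir : ∀ i, FF (dirκ (k0 := k0) T.t i) K (T.t i))
  (n c : ℕ) (d : Fin c → ℕ) (D : DSys K n c d),
  (∀ m I, I.degree = d m → ∃ j, ∀ f, D.del m I f = T.del j f) → 2 * n + 2 ≤ c + ∑ m, d m →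
  ∀ i, ∃ C : ℤ, ∀ x : Fin (n + 1) → K, x ≠ 0 → (∀ m, eval x (D.F m) = 0) →
    (ffPlaces (hdir i)).ht x ≤ C

/-- Module DEGI: bounded degree in each variable separately. -/
def DegiStatement : Prop := ∀ (k0 K : Type) [Field k0] [Field K] [Algebra k0 K]
  (N : ℕ) (t : Fin N → K), AlgebraicIndependent k0 t → ∀ (C : ℕ) (y : K),
  y ∈ IntermediateField.adjoin k0 (Set.range t) →
  (∀ i, ∃ p q : Polynomial (dirκ (k0 := k0) t i), q ≠ 0 ∧ p.natDegree ≤ C ∧ q.natDegree ≤ C ∧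
      y * Polynomial.aeval (t i) q = Polynomial.aeval (t i) p) →
  ∃ P Q : MvPolynomial (Fin N) k0, aeval t Q ≠ 0 ∧
    (∀ i, P.degreeOf i ≤ C ∧ Q.degreeOf i ≤ C) ∧ y * aeval t Q = aeval t P

/-- `x` is a combination of `θ` with coefficients `P/Q`, `P, Q` of degree `≤ B` in `t` -/
def IsBdd {k0 K : Type} [Field k0] [Field K] [Algebra k0 K] {N r : ℕ} (t : Fin N → K)
    (θ : Fin r → K) (B : ℕ) (y : K) : Prop :=
  ∃ P Q : Fin r → MvPolynomial (Fin N) k0,
    (∀ s, (P s).totalDegree ≤ B ∧ (Q s).totalDegree ≤ B ∧ aeval t (Q s) ≠ 0) ∧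
    y = ∑ s, aeval t (P s) / aeval t (Q s) * θ s

/-- Module COEF. -/
def CoefStatement : Prop := ∀ (k0 K : Type) [Field k0] [CharZero k0] [Field K] [Algebra k0 K]
  (N : ℕ) (T : Dat k0 K N) (hdir : ∀ i, FF (dirκ (k0 := k0) T.t i) K (T.t i)) (C : Fin N → ℤ),
  ∃ (r : ℕ) (θ : Fin r → K) (B : ℕ), ∀ (n : ℕ) (x : Fin (n + 1) → K) (j0 : Fin (n + 1)),
    x j0 = 1 → (∀ i, (ffPlaces (hdir i)).ht x ≤ C i) → ∀ j, IsBdd (k0 := k0) T.t θ B (x j)

/-! ### 7. Ultrapower -/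

/-- The ambient field. -/
structure Amb (C Ω : Type) [Field C] [Field Ω] [Algebra C Ω] (n c : ℕ) (d : Fin c → ℕ) where
  KK : IntermediateField C Ω
  EE : IntermediateField C Ω
  ld : KK.LinearDisjoint EE
  D : DSys Ω n c d
  coeff_mem : ∀ m I, coeff I (D.F m) ∈ KK
  del_KK : ∀ m I, I.degree = d m → ∀ f ∈ KK, D.del m I f ∈ KK
  del_EE : ∀ m I, I.degree = d m → ∀ f ∈ EE, D.del m I f = 0

/-- Module ULTRA. -/
def UltraStatement : Prop := ∀ (k0 K : Type) [Field k0] [IsAlgClosed k0] [CharZero k0] [Field K]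
  [Algebra k0 K] (n c : ℕ) (d : Fin c → ℕ) (D : DSys K n c d),
  (∀ m I, I.degree = d m → ∀ a : k0, D.del m I (algebraMap k0 K a) = 0) →
  ∀ (N r B : ℕ) (t : Fin N → K) (θ : Fin r → K) (x : ℕ → Fin (n + 1) → K) (j0 : Fin (n + 1)),
  Function.Injective x → (∀ ν, x ν j0 = 1) → (∀ ν m, eval (x ν) (D.F m) = 0) →
  (∀ ν j, IsBdd (k0 := k0) t θ B (x ν j)) →
  ∃ (Ω : Type) (_ : Field Ω) (_ : Algebra k0 Ω) (A : Amb k0 Ω n c d) (y : Fin (n + 1) → Ω),
    IsAlgClosed A.EE ∧ y j0 = 1 ∧ (∀ m, eval y (A.D.F m) = 0) ∧ (∀ j, y j ∈ A.KK ⊔ A.EE) ∧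
      ¬ ∀ j, y j ∈ A.KK

/-! ### 8. Rigidity -/

/-- Module RES: `KK` is algebraically closed in `KK(EE)`. -/
def ResStatement : Prop := ∀ (C Ω : Type) [Field C] [IsAlgClosed C] [Field Ω] [Algebra C Ω]
  (KK EE : IntermediateField C Ω), KK.LinearDisjoint EE → ∀ y ∈ KK ⊔ EE, IsAlgebraic KK y → y ∈ KK

/-- Module RIGFF. -/
def RigffStatement : Prop := ∀ (C Ω : Type) [Field C] [CharZero C] [Field Ω] [Algebra C Ω]
  (KK EE : IntermediateField C Ω), KK.LinearDisjoint EE → ∀ (ε : Ω), ε ∈ EE →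
  Transcendental C ε → ∀ (S : Set Ω), S.Finite →
  (∀ s ∈ S, s ∈ EE ∧ IsAlgebraic (IntermediateField.adjoin C {ε}) s) →
  FF KK (IntermediateField.adjoin KK (insert ε S))
    ⟨ε, IntermediateField.subset_adjoin _ _ (Set.mem_insert _ _)⟩

/-- Module RESTR: the derivations restrict to `KK(G)`, `G` a subset of `EE`. -/
def RestrStatement : Prop := ∀ (C Ω : Type) [Field C] [Field Ω] [Algebra C Ω] (n c : ℕ)
  (d : Fin c → ℕ) (A : Amb C Ω n c d) (G : Set Ω), (∀ g ∈ G, g ∈ A.EE) →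
  ∃ D' : DSys (IntermediateField.adjoin A.KK G) n c d,
    (∀ m, MvPolynomial.map (algebraMap (IntermediateField.adjoin A.KK G) Ω) (D'.F m) = A.D.F m) ∧
    ∀ m I, I.degree = d m → ∀ f : IntermediateField.adjoin A.KK G,
      ((D'.del m I f : IntermediateField.adjoin A.KK G) : Ω) = A.D.del m I (f : Ω)

/-- Module RIGID. -/
def RigidStatement : Prop := ∀ (C Ω : Type) [Field C] [IsAlgClosed C] [CharZero C] [Field Ω]
  [Algebra C Ω] (n c : ℕ) (d : Fin c → ℕ) (A : Amb C Ω n c d), 2 * n + 2 ≤ c + ∑ m, d m →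
  ∀ (ε : Ω), ε ∈ A.EE → Transcendental C ε → ∀ (S : Set Ω), S.Finite →
  (∀ s ∈ S, s ∈ A.EE ∧ IsAlgebraic (IntermediateField.adjoin C {ε}) s) →
  ∀ (x : Fin (n + 1) → Ω) (j0 : Fin (n + 1)), x j0 = 1 → (∀ m, eval x (A.D.F m) = 0) →
  (∀ j, x j ∈ IntermediateField.adjoin A.KK (insert ε S)) → ∀ j, x j ∈ A.KK

/-! ### 9. End of the proof of Theorem 1 -/

/-- Module LDT: linear disjointness in towers. -/
def LdtStatement : Prop := ∀ (k0 Ω : Type) [Field k0] [Field Ω] [Algebra k0 Ω]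
  (KK EE C : IntermediateField k0 Ω) (hC : C ≤ EE), KK.LinearDisjoint EE →
  (IntermediateField.adjoin C (KK : Set Ω)).LinearDisjoint (IntermediateField.extendScalars hC)

/-- Module CHAIN. -/
def ChainStatement : Prop := ∀ (k0 Ω : Type) [Field k0] [IsAlgClosed k0] [CharZero k0] [Field Ω]
  [Algebra k0 Ω] (n c : ℕ) (d : Fin c → ℕ) (A : Amb k0 Ω n c d), IsAlgClosed A.EE →
  2 * n + 2 ≤ c + ∑ m, d m →
  ∀ (x : Fin (n + 1) → Ω) (j0 : Fin (n + 1)), x j0 = 1 → (∀ m, eval x (A.D.F m) = 0) →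
  (∀ j, x j ∈ A.KK ⊔ A.EE) → ∀ j, x j ∈ A.KK

/-- the coefficients of the forms, indexed by all pairs (form, monomial of its degree) -/
def coeffs {k : Type} [Field k] {n c : ℕ} (d : Fin c → ℕ)
    (F : Fin c → MvPolynomial (Fin (n + 1)) k) :
    {s : Fin c × (Fin (n + 1) →₀ ℕ) // s.2.degree = d s.1} → k :=
  fun s => coeff s.1.2 (F s.1.1)

/-- Module THM1: Theorem 1 of the paper. -/
def Thm1Statement : Prop := ∀ (k0 K : Type) [Field k0] [IsAlgClosed k0] [CharZero k0] [Field K]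
  [Algebra k0 K], (⊤ : IntermediateField k0 K).FG → ∀ (n c : ℕ) (d : Fin c → ℕ)
  (F : Fin c → MvPolynomial (Fin (n + 1)) K), (∀ m, (F m).IsHomogeneous (d m)) →
  AlgebraicIndependent k0 (coeffs d F) → 2 * n + 2 ≤ c + ∑ m, d m →
  ∀ j0 : Fin (n + 1), {x : Fin (n + 1) → K | x j0 = 1 ∧ ∀ m, eval x (F m) = 0}.Finite

/-- Module THML: Theorem L of the paper. -/
def ThmlStatement : Prop := ∀ (k : Type) [Field k] [IsAlgClosed k] [CharZero k]
  (n c : ℕ) (d : Fin c → ℕ) (F : Fin c → MvPolynomial (Fin (n + 1)) k),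
  (∀ m, (F m).IsHomogeneous (d m)) → AlgebraicIndependent ℤ (coeffs d F) →
  2 * n + 2 ≤ c + ∑ m, d m → ∀ (S : Set k), S.Finite → ∀ j0 : Fin (n + 1),
  {x : Fin (n + 1) → k | x j0 = 1 ∧ (∀ j, x j ∈ Subfield.closure S) ∧
    ∀ m, eval x (F m) = 0}.Finite

end Pool.Agent.Gen
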