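import Pool.Agent.Lib.MP_c7af3c_ag.GEN.Interfaces

/-!
# MP_c7af3c_ag, project GEN: module statements, part 3: schemes (section 10 of Paper.md)
-/

set_option autoImplicit false

namespace Pool.Agent.Gen

open AlgebraicGeometry CategoryTheory CategoryTheory.Limits
open MvPolynomial (homogeneousSubmodule)

/-- the value of a section at a `k`-point -/
noncomputable def kval {k : Type} [Field k] {Y : Scheme.{0}} (y : Spec (CommRingCat.of k) ⟶ Y)
    (U : Y.Opens) (h : ⊤ ≤ y ⁻¹ᵁ U) (f : Γ(Y, U)) : k :=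
  (Scheme.ΓSpecIso (CommRingCat.of k)).hom.hom ((y.appLE U ⊤ h).hom f)

/-- `Spec k → Spec R` -/
noncomputable abbrev specIncl {k : Type} [Field k] (R : Subring k) :
    Spec (CommRingCat.of k) ⟶ Spec (CommRingCat.of R) :=
  Spec.map (CommRingCat.ofHom R.subtype)

/-- Module SFRAC: values of `R`-sections lie in the fraction field of `R`. -/
def SfracStatement : Prop := ∀ (k : Type) [Field k] (R : Subring k) (Y : Scheme.{0})
  (s : Spec (CommRingCat.of R) ⟶ Y) (U : Y.Opens) (h : ⊤ ≤ (specIncl R ≫ s) ⁻¹ᵁ U)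
  (b : Γ(Y, U)), kval (specIncl R ≫ s) U h b ∈ Subfield.closure (R : Set k)

/-- Module STENS: functions on the base change of an affine open. -/
def StensStatement : Prop := ∀ (R A : CommRingCat.{0}) (φ : R ⟶ A) (M : Scheme.{0})
  (p : M ⟶ Spec R) (U : M.Opens), IsAffineOpen U →
  IsAffineOpen (pullback.fst p (Spec.map φ) ⁻¹ᵁ U) ∧
  ∀ T : Subring Γ(pullback p (Spec.map φ), pullback.fst p (Spec.map φ) ⁻¹ᵁ U),
    (∀ b : Γ(M, U), ((pullback.fst p (Spec.map φ)).app U).hom b ∈ T) →
    (∀ a : A, ((pullback.snd p (Spec.map φ)).appLE ⊤ (pullback.fst p (Spec.map φ) ⁻¹ᵁ U)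
      le_top).hom ((Scheme.ΓSpecIso A).inv.hom a) ∈ T) → T = ⊤

/-- the `k`-point of the geometric fibre given by a section -/
noncomputable def secPt {k : Type} [Field k] (R : Subring k) {M : Scheme.{0}}
    (p : M ⟶ Spec (CommRingCat.of R)) (s : Spec (CommRingCat.of R) ⟶ M) (hs : s ≫ p = 𝟙 _) :
    Spec (CommRingCat.of k) ⟶ pullback p (specIncl R) :=
  pullback.lift (specIncl R ≫ s) (𝟙 _) (by rw [Category.assoc, hs, Category.comp_id,
    Category.id_comp])

/-- Module SPREAD. -/
def SpreadStatement : Prop := ∀ (k : Type) [Field k] (R : Subring k) (M : Scheme.{0})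
  (p : M ⟶ Spec (CommRingCat.of R)) (V : (pullback p (specIncl R)).Opens),
  IsCompact V.carrier → ∀ f : Γ(pullback p (specIncl R), V),
  ∃ T : Set k, T.Finite ∧ ∀ (s : Spec (CommRingCat.of R) ⟶ M) (hs : s ≫ p = 𝟙 _)
    (h : ⊤ ≤ secPt R p s hs ⁻¹ᵁ V), kval (secPt R p s hs) V h f ∈ Subfield.closure (R ∪ T)

/-- Module SINJ: a section is determined by its `k`-point. -/
def SinjStatement : Prop := ∀ (k : Type) [Field k] (R : Subring k) (M : Scheme.{0})
  (p : M ⟶ Spec (CommRingCat.of R)), IsSeparated p →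
  ∀ (s s' : Spec (CommRingCat.of R) ⟶ M) (hs : s ≫ p = 𝟙 _) (hs' : s' ≫ p = 𝟙 _),
  secPt R p s hs = secPt R p s' hs' → s = s'

section

variable (k : Type) [Field k] (n : ℕ) [GradedAlgebra (homogeneousSubmodule (Fin (n + 1)) k)]

/-- the section `X_l / X_j` on `D_+(X_j)` -/
noncomputable def coordSec (j l : Fin (n + 1)) :
    Γ(Proj (homogeneousSubmodule (Fin (n + 1)) k),
      Proj.basicOpen (homogeneousSubmodule (Fin (n + 1)) k) (MvPolynomial.X j)) :=
  (Proj.awayToSection (homogeneousSubmodule (Fin (n + 1)) k) (MvPolynomial.X j)).hom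
    (HomogeneousLocalization.Away.mk (homogeneousSubmodule (Fin (n + 1)) k)
      (f := MvPolynomial.X j) (d := 1) (MvPolynomial.isHomogeneous_X k j) 1
      (MvPolynomial.X l) (by simpa using MvPolynomial.isHomogeneous_X k l))

/-- the structure morphism of projective space -/
noncomputable abbrev projStr : Proj (homogeneousSubmodule (Fin (n + 1)) k) ⟶
    Spec (CommRingCat.of k) :=
  Proj.toSpecZero (homogeneousSubmodule (Fin (n + 1)) k) ≫
    Spec.map (CommRingCat.ofHom (algebraMap k (homogeneousSubmodule (Fin (n + 1)) k 0)))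

/-- the coordinates (in the chart `j`) of a `k`-point -/
noncomputable def pcoord (j : Fin (n + 1))
    (P : Spec (CommRingCat.of k) ⟶ Proj (homogeneousSubmodule (Fin (n + 1)) k))
    (h : ⊤ ≤ P ⁻¹ᵁ Proj.basicOpen (homogeneousSubmodule (Fin (n + 1)) k) (MvPolynomial.X j)) :
    Fin (n + 1) → k :=
  fun l => kval P _ h (coordSec k n j l)

/-- Module SPROJ: `k`-points of projective space. -/
structure ProjFacts : Prop where
  chart : ∀ x : Proj (homogeneousSubmodule (Fin (n + 1)) k), ∃ j,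
    x ∈ Proj.basicOpen (homogeneousSubmodule (Fin (n + 1)) k) (MvPolynomial.X j)
  one : ∀ (j : Fin (n + 1))
    (P : Spec (CommRingCat.of k) ⟶ Proj (homogeneousSubmodule (Fin (n + 1)) k)) h,
    pcoord k n j P h j = 1
  zero : ∀ (j : Fin (n + 1))
    (P : Spec (CommRingCat.of k) ⟶ Proj (homogeneousSubmodule (Fin (n + 1)) k)) h,
    P ≫ projStr k n = 𝟙 _ → ∀ (d : ℕ) (F : MvPolynomial (Fin (n + 1)) k), F.IsHomogeneous d →
    (∀ a, F ∈ (P.base a).asHomogeneousIdeal) → MvPolynomial.eval (pcoord k n j P h) F = 0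
  inj : ∀ (j : Fin (n + 1))
    (P Q : Spec (CommRingCat.of k) ⟶ Proj (homogeneousSubmodule (Fin (n + 1)) k)) hP hQ,
    P ≫ projStr k n = 𝟙 _ → Q ≫ projStr k n = 𝟙 _ → pcoord k n j P hP = pcoord k n j Q hQ → P = Q

end

/-- Module SPROJ. -/
def SprojStatement : Prop := ∀ (k : Type) [Field k] (n : ℕ)
  [GradedAlgebra (homogeneousSubmodule (Fin (n + 1)) k)], ProjFacts k n

/-- `X` is arithmetically hyperbolic (exactly as in the frozen statement S00435). -/
def IsAH (k : Type) [Field k] (X : Over (Spec (CommRingCat.of k))) : Prop :=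
  ∀ (R : Subring k), Algebra.FiniteType ℤ R → ∀ (M : Over (Spec (CommRingCat.of R))),
    IsSeparated M.hom → LocallyOfFiniteType M.hom → QuasiCompact M.hom →
    (∃ e : pullback M.hom (Spec.map (CommRingCat.ofHom R.subtype)) ≅ X.left,
       e.hom ≫ X.hom = pullback.snd _ _) →
    {s : Spec (CommRingCat.of R) ⟶ M.left | s ≫ M.hom = 𝟙 _}.Finite

/-- Module SFIB: a finite morphism has finite fibres on `k`-points. -/
def SfibStatement : Prop := ∀ (k : Type) [Field k] (X Y : Scheme.{0}) (i : X ⟶ Y), IsFinite i →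
  ∀ P : Spec (CommRingCat.of k) ⟶ Y, {x : Spec (CommRingCat.of k) ⟶ X | x ≫ i = P}.Finite

/-- Module SFIN: arithmetic hyperbolicity of the varieties with a finite morphism to the
intersection (for instance the closed subvarieties). -/
def SfinStatement : Prop := ∀ (k : Type) [Field k] [IsAlgClosed k] [CharZero k]
  (n c : ℕ) (d : Fin c → ℕ) (F : Fin c → MvPolynomial (Fin (n + 1)) k),
  (∀ m, (F m).IsHomogeneous (d m)) → AlgebraicIndependent ℤ (coeffs d F) →
  2 * n + 2 ≤ c + ∑ m, d m → ∀ (X : Over (Spec (CommRingCat.of k))),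
  (∃ (_ : GradedAlgebra (homogeneousSubmodule (Fin (n + 1)) k))
      (i : X.left ⟶ Proj (homogeneousSubmodule (Fin (n + 1)) k)),
      IsFinite i ∧ i ≫ projStr k n = X.hom ∧
      ∀ (a : X.left) (m : Fin c), F m ∈ (i.base a).asHomogeneousIdeal) → IsAH k X

end Pool.Agent.Gen
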